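import Pool.Agent.Helper58.DH.Goals

/-!
# Packet DH-Q_IDN: the sum of the equations of the elements of `S`.
-/

set_option autoImplicit false

namespace Pool.Agent.Helper82.DH

open Pool.Agent.Helper58.DH Finset

theorem ph_eq (a b z : ℝ) : ph a b z = -2 * cs a b z := by
  unfold ph cs
  rw [mul_assoc, div_mul_eq_div_div]
  ring

theorem q_idn : Q_IDN := by
  intro n d β A x hA hs S
  set T : ℝ := ∑ e ∈ S, ∑ j, ∑ k, A e j k * ph (x j) (x k) (x e) with hT
  have h0 : ∑ i, ∑ j, ∑ k, A i j k * (if i ∈ S then ph (x j) (x k) (x i) else 0) = T := by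
    rw [hT, ← Finset.sum_subset (Finset.subset_univ S)]
    · refine Finset.sum_congr rfl fun i hi => Finset.sum_congr rfl fun j _ =>
        Finset.sum_congr rfl fun k _ => ?_
      rw [if_pos hi]
    · intro i _ hi
      refine Finset.sum_eq_zero fun j _ => Finset.sum_eq_zero fun k _ => ?_
      rw [if_neg hi, mul_zero]
  have h1 : ∑ i, ∑ j, ∑ k, A i j k * (if j ∈ S then ph (x i) (x k) (x j) else 0) = T := by
    rw [← h0, Finset.sum_comm]
    refine Finset.sum_congr rfl fun i _ => Finset.sum_congr rfl fun j _ =>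
        Finset.sum_congr rfl fun k _ => ?_
    rw [hA.2.1 j i k]
  have h2 : ∑ i, ∑ j, ∑ k, A i j k * (if k ∈ S then ph (x i) (x j) (x k) else 0) = T := by
    rw [← h0]
    have e1 : ∀ i : Fin n, ∑ j, ∑ k, A i j k * (if k ∈ S then ph (x i) (x j) (x k) else 0) =
        ∑ k, ∑ j, A k i j * (if k ∈ S then ph (x i) (x j) (x k) else 0) := by
      intro i
      rw [Finset.sum_comm]
      refine Finset.sum_congr rfl fun k _ => Finset.sum_congr rfl fun j _ => ?_
      rw [hA.2.2 i j k, hA.2.1 i k j]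
    rw [Finset.sum_congr rfl fun i _ => e1 i, Finset.sum_comm]
  have h3 : ∑ i, ∑ j, ∑ k, A i j k * PH x S i j k = T + T + T := by
    rw [← h0]
    nth_rewrite 2 [h0]
    nth_rewrite 2 [h0]
    rw [← h1]
    nth_rewrite 2 [h1]
    rw [← h2, ← Finset.sum_add_distrib, ← Finset.sum_add_distrib]
    refine Finset.sum_congr rfl fun i _ => ?_
    rw [← Finset.sum_add_distrib, ← Finset.sum_add_distrib]
    refine Finset.sum_congr rfl fun j _ => ?_
    rw [← Finset.sum_add_distrib, ← Finset.sum_add_distrib]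
    refine Finset.sum_congr rfl fun k _ => ?_
    rw [PH]
    ring
  have h4 : ∑ e ∈ S, d e * x e = ∑ e ∈ S, d e * β e + (1 / 2) * T := by
    rw [hT, Finset.mul_sum, ← Finset.sum_add_distrib]
    refine Finset.sum_congr rfl fun e _ => ?_
    rw [hs.2 e, Finset.mul_sum, sub_eq_add_neg, ← Finset.sum_neg_distrib]
    congr 1
    refine Finset.sum_congr rfl fun j _ => ?_
    rw [Finset.mul_sum, ← Finset.sum_neg_distrib]
    refine Finset.sum_congr rfl fun k _ => ?_
    rw [ph_eq]
    ring
  rw [h4, h3]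
  ring

end Pool.Agent.Helper82.DH
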